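import Mathlib

/-!
# The cover time of growing random balls: definitions
-/

set_option autoImplicit false

open MeasureTheory ProbabilityTheory Set
open scoped ENNReal

namespace Pool.Agent.R972.CT

/-- The arrival time of seed number `n` (`n = 0, 1, 2, …`): the sum of the first `n + 1` waiting
times `g`. -/
noncomputable def arrival (g : ℕ → ℝ) (n : ℕ) : ℝ := ∑ k ∈ Finset.range (n + 1), g k

/-- The growth process: the union of the closed balls of radius `v (t - τ_i)` around the seeds
which have arrived by time `t`. -/
def grown {S : Type*} [PseudoMetricSpace S] (v : ℝ) (g : ℕ → ℝ) (σ : ℕ → S) (t : ℝ) : Set S :=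
  ⋃ i ∈ {i : ℕ | arrival g i ≤ t}, Metric.closedBall (σ i) (v * (t - arrival g i))

/-- The cover time, the infimum of the `t ≥ 0` at which the whole space is covered (`∞` if there
is none). -/
noncomputable def coverTime {S : Type*} [PseudoMetricSpace S] (v : ℝ) (g : ℕ → ℝ) (σ : ℕ → S) :
    ℝ≥0∞ :=
  ⨅ (t : ℝ) (_ : 0 ≤ t) (_ : grown v g σ t = univ), ENNReal.ofReal t

/-- The law of the waiting times of a Poisson process of rate `lam`: i.i.d. exponential of rate
`lam`. -/
noncomputable def waitLaw (lam : ℝ) (h : 0 < lam) : Measure (ℕ → ℝ) :=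
  haveI := isProbabilityMeasure_expMeasure h
  Measure.infinitePi fun _ : ℕ => expMeasure lam

/-- The mean cover time, for a Poisson process of rate `lam` of arrival times and, independently,
i.i.d. seeds with law `μ`. -/
noncomputable def meanCover {S : Type*} [PseudoMetricSpace S] [MeasurableSpace S] (lam v : ℝ)
    (h : 0 < lam) (μ : Measure S) [IsProbabilityMeasure μ] : ℝ≥0∞ :=
  ∫⁻ p, coverTime v p.1 p.2 ∂((waitLaw lam h).prod (Measure.infinitePi fun _ : ℕ => μ))

/-! ### The cyclic group of order four with its cycle metric -/

/-- the cyclic group of order four -/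
def C4 : Type := ZMod 4

instance : AddCommGroup C4 := inferInstanceAs (AddCommGroup (ZMod 4))
instance : Fintype C4 := inferInstanceAs (Fintype (ZMod 4))
instance : DecidableEq C4 := inferInstanceAs (DecidableEq (ZMod 4))

/-- the cycle distance -/
def cyc (a b : ZMod 4) : ℕ := min (a - b).val (b - a).val

lemma cyc_self : ∀ a : ZMod 4, cyc a a = 0 := by decide
lemma cyc_comm : ∀ a b : ZMod 4, cyc a b = cyc b a := by decide
lemma cyc_tri : ∀ a b c : ZMod 4, cyc a c ≤ cyc a b + cyc b c := by decide
lemma cyc_eq : ∀ a b : ZMod 4, cyc a b = 0 → a = b := by decide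
lemma cyc_add : ∀ g a b : ZMod 4, cyc (g + a) (g + b) = cyc a b := by decide

noncomputable instance : MetricSpace C4 where
  dist a b := (cyc a b : ℝ)
  dist_self a := by rw [cyc_self]; simp
  dist_comm a b := by rw [cyc_comm]
  dist_triangle a b c := by exact_mod_cast cyc_tri a b c
  eq_of_dist_eq_zero := by
    intro a b h
    exact cyc_eq a b (by exact_mod_cast h)

lemma dist_C4 (a b : C4) : dist a b = (cyc a b : ℝ) := rfl

instance : CompactSpace C4 := Finite.compactSpace
instance : DiscreteTopology C4 := inferInstance
instance : IsTopologicalAddGroup C4 where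
  continuous_add := continuous_of_discreteTopology
  continuous_neg := continuous_of_discreteTopology
instance : MeasurableSpace C4 := ⊤
instance : MeasurableSingletonClass C4 := ⟨fun _ => trivial⟩
instance : BorelSpace C4 := ⟨by
  rw [borel_eq_top_of_discrete]; rfl⟩

lemma dist_add (g a b : C4) : dist (g + a) (g + b) = dist a b := by
  rw [dist_C4, dist_C4]
  exact_mod_cast cyc_add g a b

end Pool.Agent.R972.CT
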