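import Pool.Agent.R972.CT.Int

set_option autoImplicit false

open MeasureTheory ProbabilityTheory Set
open scoped ENNReal

namespace Pool.Agent.R972.CT

/-- element -/
def z0 : C4 := (0 : ZMod 4)
/-- element -/
def z1 : C4 := (1 : ZMod 4)
/-- element -/
def z2 : C4 := (2 : ZMod 4)
/-- element -/
def z3 : C4 := (3 : ZMod 4)

lemma sum_C4 (f : C4 → ℝ≥0∞) : ∑ a : C4, f a = f z0 + f z1 + f z2 + f z3 :=
  Fin.sum_univ_four (f := f)

lemma z_ne : z0 ≠ z1 ∧ z0 ≠ z2 ∧ z0 ≠ z3 ∧ z1 ≠ z2 ∧ z1 ≠ z3 ∧ z2 ≠ z3 := by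
  refine ⟨?_, ?_, ?_, ?_, ?_, ?_⟩
  · exact (by decide : (0 : ZMod 4) ≠ 1)
  · exact (by decide : (0 : ZMod 4) ≠ 2)
  · exact (by decide : (0 : ZMod 4) ≠ 3)
  · exact (by decide : (1 : ZMod 4) ≠ 2)
  · exact (by decide : (1 : ZMod 4) ≠ 3)
  · exact (by decide : (2 : ZMod 4) ≠ 3)

lemma sum_cyc (f : ℕ → ℝ≥0∞) : ∑ a : C4, ∑ b : C4, f (cyc a b) = 4 * f 0 + 8 * f 1 + 4 * f 2 := by
  simp only [sum_C4]
  change (f 0 + f 1 + f 2 + f 1) + (f 1 + f 0 + f 1 + f 2) + (f 2 + f 1 + f 0 + f 1) +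
    (f 1 + f 2 + f 1 + f 0) = _
  ring

/-- the uniform measure on `{0, 2}` -/
noncomputable def mu : Measure C4 :=
  (2⁻¹ : ℝ≥0∞) • Measure.dirac z0 + (2⁻¹ : ℝ≥0∞) • Measure.dirac z2

instance : IsProbabilityMeasure mu := ⟨by simp [mu, ENNReal.inv_two_add_inv_two]⟩

lemma mu0 : mu {z0} = 2⁻¹ := by
  simp [mu, Measure.dirac_apply' _ (measurableSet_singleton z0), z_ne.2.1.symm]
lemma mu1 : mu {z1} = 0 := by
  simp [mu, Measure.dirac_apply' _ (measurableSet_singleton z1), z_ne.1, z_ne.2.2.2.1.symm]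
lemma mu2 : mu {z2} = 2⁻¹ := by
  simp [mu, Measure.dirac_apply' _ (measurableSet_singleton z2), z_ne.2.1]
lemma mu3 : mu {z3} = 0 := by
  simp [mu, Measure.dirac_apply' _ (measurableSet_singleton z3), z_ne.2.2.1, z_ne.2.2.2.2.2]

lemma sum_mu (e : ℕ → ℝ≥0∞) : ∑ a : C4, ∑ b : C4, mu {a} * mu {b} * e (cyc a b) =
    2⁻¹ * 2⁻¹ * (2 * e 0 + 2 * e 2) := by
  simp only [sum_C4, mu0, mu1, mu2, mu3, zero_mul, mul_zero, add_zero]
  change 2⁻¹ * 2⁻¹ * e 0 + 2⁻¹ * 2⁻¹ * e 2 + (2⁻¹ * 2⁻¹ * e 2 + 2⁻¹ * 2⁻¹ * e 0) = _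
  ring

lemma haar_val (m : Measure C4) [m.IsAddHaarMeasure] [IsProbabilityMeasure m] (a : C4) :
    m {a} = 4⁻¹ := by
  have h1 : ∀ a : C4, m {a} = m {0} := by
    intro a
    have h := measure_preimage_add m a {a}
    rw [← h]
    congr 1
    ext x
    simp
  have h2 : m univ = ∑ a : C4, m {a} := by
    have := (MeasureTheory.sum_measure_singleton (μ := m) (s := (Finset.univ : Finset C4)))
    rw [this]; simp
  rw [measure_univ, Finset.sum_congr rfl (fun a _ => h1 a), Finset.sum_const, Finset.card_univ] at h2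
  have h3 : Fintype.card C4 = 4 := rfl
  rw [h3, nsmul_eq_mul] at h2
  rw [h1 a]
  push_cast at h2
  exact ENNReal.eq_inv_of_mul_eq_one_left (by rw [mul_comm]; exact h2.symm)

lemma ind_int {lam : ℝ} (h : 0 < lam) (x : ℝ) :
    Integrable ((Iic x).indicator (fun _ => (1:ℝ))) (expMeasure lam) := by
  have := isProbabilityMeasure_expMeasure h
  exact (integrable_const (1:ℝ)).indicator measurableSet_Iic

lemma sum_ind {lam : ℝ} (h : 0 < lam) (x : ℕ → ℝ) (hx : ∀ k, 0 ≤ x k) :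
    ∫ s, (2 - 4⁻¹ * ∑ k ∈ Finset.range 4, (Iic (x k)).indicator (fun _ => (1:ℝ)) s) ∂(expMeasure lam) =
      2 - 4⁻¹ * ∑ k ∈ Finset.range 4, (1 - Real.exp (-(lam * x k))) := by
  have := isProbabilityMeasure_expMeasure h
  rw [integral_sub (integrable_const _) ((integrable_finsetSum _ fun k _ => ind_int h _).const_mul _),
    integral_const_mul, integral_finsetSum _ fun k _ => ind_int h _]
  simp_rw [int_ind h (hx _)]
  simp

lemma sum_ind_int {lam : ℝ} (h : 0 < lam) (x : ℕ → ℝ) :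
    Integrable (fun s => (2 - 4⁻¹ * ∑ k ∈ Finset.range 4, (Iic (x k)).indicator (fun _ => (1:ℝ)) s))
      (expMeasure lam) := by
  have := isProbabilityMeasure_expMeasure h
  exact (integrable_const _).sub ((integrable_finsetSum _ fun k _ => ind_int h _).const_mul _)

lemma E_two {lam : ℝ} (h : 0 < lam) : E lam 2 ≤ 2 - 4⁻¹ * ∑ k ∈ Finset.range 4,
    (1 - Real.exp (-(lam * (1 + k / 4)))) := by
  rw [← sum_ind h (fun k => 1 + (k:ℝ) / 4) (fun k => by positivity)]
  refine integral_mono_ae (dd_integrable h 2) (sum_ind_int h _) ?_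
  filter_upwards [exp_nonneg h] with s hs
  simp only [Finset.sum_range_succ, Finset.sum_range_zero, indicator, mem_Iic, dd]
  norm_num
  rcases le_or_gt s 1 with h1 | h1
  · rw [if_pos (by linarith : s ≤ 1), if_pos (by linarith), if_pos (by linarith),
      if_pos (by linarith)]
    right; norm_num; exact h1
  · rw [if_neg (by linarith : ¬ s ≤ 1)]
    split_ifs
    all_goals first
      | (exfalso; linarith)
      | (right; constructor <;> linarith)
      | (left; norm_num)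

lemma E_one {lam : ℝ} (h : 0 < lam) : 2 - 4⁻¹ * ∑ k ∈ Finset.range 4,
    (1 - Real.exp (-(lam * ((k + 1) / 4)))) ≤ E lam 1 := by
  rw [← sum_ind h (fun k => ((k:ℝ) + 1) / 4) (fun k => by positivity)]
  refine integral_mono_ae (sum_ind_int h _) (dd_integrable h 1) ?_
  filter_upwards [exp_nonneg h] with s hs
  simp only [Finset.sum_range_succ, Finset.sum_range_zero, indicator, mem_Iic, dd]
  norm_num
  split_ifs
  all_goals first
      | (exfalso; linarith)
      | (constructor <;> linarith)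


end Pool.Agent.R972.CT
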