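import Pool.Agent.R972.CT.Main

set_option autoImplicit false

open MeasureTheory ProbabilityTheory Set
open scoped ENNReal

namespace Pool.Agent.R972.CT

section

variable {lam : ℝ} (h : 0 < lam)
include h

lemma exp_real {x : ℝ} (hx : 0 ≤ x) : (expMeasure lam).real (Iic x) = 1 - Real.exp (-(lam * x)) := by
  have := isProbabilityMeasure_expMeasure h
  rw [← cdf_eq_real, cdf_expMeasure_eq h, if_pos hx]

lemma exp_nonneg : ∀ᵐ x ∂(expMeasure lam), 0 ≤ x := by
  have := isProbabilityMeasure_expMeasure h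
  have h1 : (expMeasure lam).real (Iic 0) = 0 := by rw [exp_real h le_rfl]; simp
  have h2 : expMeasure lam (Iic 0) = 0 := by
    rwa [measureReal_def, ENNReal.toReal_eq_zero_iff, or_iff_left (measure_ne_top _ _)] at h1
  have h3 : ∀ᵐ x ∂(expMeasure lam), x ∉ Iic 0 := measure_eq_zero_iff_ae_notMem.1 h2
  filter_upwards [h3] with x hx
  exact (not_le.1 hx).le

instance waitLaw_prob : IsProbabilityMeasure (waitLaw lam h) := by
  have := isProbabilityMeasure_expMeasure h
  unfold waitLaw; infer_instance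

lemma wait_nonneg : ∀ᵐ g ∂(waitLaw lam h), ∀ k, 0 ≤ g k := by
  have := isProbabilityMeasure_expMeasure h
  rw [ae_all_iff]
  intro k
  have h1 : MeasurePreserving (fun g : ℕ → ℝ => g k) (waitLaw lam h) (expMeasure lam) :=
    measurePreserving_eval_infinitePi (fun _ : ℕ => expMeasure lam) k
  exact h1.quasiMeasurePreserving.ae (exp_nonneg h)

/-- mean waiting time -/
lemma mean_ne_top : ∫⁻ x, ENNReal.ofReal x ∂(expMeasure lam) ≠ ∞ := by
  have h1 : expMeasure lam = volume.withDensity (exponentialPDF lam) := rfl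
  have hm : Measurable (exponentialPDF lam) := (measurable_exponentialPDFReal lam).ennreal_ofReal
  rw [h1, lintegral_withDensity_eq_lintegral_mul _ hm (by fun_prop)]
  have h2 : ∀ x : ℝ, (exponentialPDF lam * fun x => ENNReal.ofReal x) x ≤
      (Ici (0:ℝ)).indicator (fun x => ENNReal.ofReal (2 * Real.exp (-(lam / 2) * x))) x := by
    intro x
    rw [Pi.mul_apply]
    rcases lt_or_ge x 0 with hx | hx
    · rw [exponentialPDF_of_neg hx]; simp
    · rw [indicator_of_mem (by exact hx), exponentialPDF_of_nonneg hx,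
        ← ENNReal.ofReal_mul (by positivity)]
      apply ENNReal.ofReal_le_ofReal
      have e1 : Real.exp (-(lam / 2) * x) = Real.exp (-(lam * x)) * Real.exp (lam / 2 * x) := by
        rw [← Real.exp_add]; congr 1; ring
      have e2 := Real.add_one_le_exp (lam / 2 * x)
      rw [e1]
      have e3 : 0 < Real.exp (-(lam * x)) := Real.exp_pos _
      have e4 : lam * x ≤ 2 * Real.exp (lam / 2 * x) := by linarith
      nlinarith
  refine ne_top_of_le_ne_top ?_ (lintegral_mono h2)
  rw [lintegral_indicator measurableSet_Ici]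
  have h3 : IntegrableOn (fun x : ℝ => 2 * Real.exp (-(lam / 2) * x)) (Ici 0) := by
    rw [integrableOn_Ici_iff_integrableOn_Ioi]
    exact (exp_neg_integrableOn_Ioi 0 (by positivity : 0 < lam / 2)).const_mul 2
  have h4 := h3.hasFiniteIntegral
  rw [HasFiniteIntegral] at h4
  refine ne_top_of_le_ne_top h4.ne (lintegral_mono fun x => ?_)
  rw [← ofReal_norm]
  exact ENNReal.ofReal_le_ofReal (le_abs_self _)

/-- the whole space -/
noncomputable abbrev Pr (ν : Measure C4) [IsProbabilityMeasure ν] : Measure ((ℕ → ℝ) × (ℕ → C4)) :=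
  (waitLaw lam h).prod (Measure.infinitePi fun _ : ℕ => ν)

omit h in
lemma dd_cont (j : ℕ) : Continuous (dd j) := by
  unfold dd
  by_cases h0 : j = 0
  · simp only [h0, if_true]; fun_prop
  · by_cases h1 : j = 1
    · simp only [h1]; norm_num; fun_prop
    · simp only [h0, h1, if_false]; fun_prop

omit h in
lemma D_meas : Measurable fun p : (C4 × C4) × ℝ => ENNReal.ofReal (D p.1.1 p.1.2 p.2) := by
  refine measurable_from_prod_countable_right fun q => ?_
  change Measurable fun s => ENNReal.ofReal (dd (cyc q.1 q.2) s)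
  exact ((dd_cont _).measurable).ennreal_ofReal

lemma dd_integrable (j : ℕ) : Integrable (dd j) (expMeasure lam) := by
  have := isProbabilityMeasure_expMeasure h
  refine Integrable.of_bound (dd_cont j).aestronglyMeasurable 2 ?_
  filter_upwards [exp_nonneg h] with x hx
  rw [Real.norm_eq_abs, abs_of_nonneg (dd_nonneg j hx)]
  exact dd_le j x

/-- the mean of `dd j` -/
noncomputable def E (lam : ℝ) (j : ℕ) : ℝ := ∫ x, dd j x ∂(expMeasure lam)

lemma E_nonneg (j : ℕ) : 0 ≤ E lam j := by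
  apply integral_nonneg_of_ae
  filter_upwards [exp_nonneg h] with x hx
  exact dd_nonneg j hx

lemma E_eq (j : ℕ) : ∫⁻ x, ENNReal.ofReal (dd j x) ∂(expMeasure lam) = ENNReal.ofReal (E lam j) := by
  rw [E, ofReal_integral_eq_lintegral_ofReal (dd_integrable h j)]
  filter_upwards [exp_nonneg h] with x hx
  exact dd_nonneg j hx

lemma E_zero : E lam 0 = 2 := by
  have := isProbabilityMeasure_expMeasure h
  simp [E, dd]

/-- the mean of the two-seed time -/
lemma int_D (ν : Measure C4) [IsProbabilityMeasure ν] :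
    ∫⁻ p, ENNReal.ofReal (D (p.2 0) (p.2 1) (p.1 1)) ∂(Pr h ν) =
      ∑ a : C4, ∑ b : C4, ν {a} * ν {b} * ENNReal.ofReal (E lam (cyc a b)) := by
  have := isProbabilityMeasure_expMeasure h
  have h1 : MeasurePreserving (fun g : ℕ → ℝ => g 1) (waitLaw lam h) (expMeasure lam) :=
    measurePreserving_eval_infinitePi (fun _ : ℕ => expMeasure lam) 1
  have h2 : (Measure.infinitePi fun _ : ℕ => ν).map (fun σ => (σ 0, σ 1)) = ν.prod ν :=
    Measure.infinitePi_map_eval_prod (P := fun _ : ℕ => ν) (by norm_num)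
  have h2' : MeasurePreserving (fun σ : ℕ → C4 => (σ 0, σ 1))
      (Measure.infinitePi fun _ : ℕ => ν) (ν.prod ν) := ⟨by fun_prop, h2⟩
  have h3 : MeasurePreserving (fun p : (ℕ → ℝ) × (ℕ → C4) => ((p.2 0, p.2 1), p.1 1))
      (Pr h ν) ((ν.prod ν).prod (expMeasure lam)) := by
    have := (h2'.prod h1).comp (Measure.measurePreserving_swap (μ := waitLaw lam h)
      (ν := Measure.infinitePi fun _ : ℕ => ν))
    exact this
  have e1 : ∫⁻ p, ENNReal.ofReal (D (p.2 0) (p.2 1) (p.1 1)) ∂(Pr h ν) =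
      ∫⁻ q, ENNReal.ofReal (D q.1.1 q.1.2 q.2) ∂((ν.prod ν).prod (expMeasure lam)) :=
    h3.lintegral_comp D_meas
  rw [e1, lintegral_prod _ D_meas.aemeasurable]
  have e2 : ∀ q : C4 × C4, ∫⁻ s, ENNReal.ofReal (D q.1 q.2 s) ∂(expMeasure lam) =
      ENNReal.ofReal (E lam (cyc q.1 q.2)) := fun q => E_eq h _
  simp_rw [e2]
  rw [lintegral_prod _ (by exact (measurable_of_countable _).aemeasurable)]
  rw [lintegral_fintype]
  refine Finset.sum_congr rfl fun a _ => ?_
  rw [lintegral_fintype, Finset.sum_mul]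
  refine Finset.sum_congr rfl fun b _ => ?_
  ring

lemma int_g0 (ν : Measure C4) [IsProbabilityMeasure ν] :
    ∫⁻ p, ENNReal.ofReal (p.1 0) ∂(Pr h ν) = ∫⁻ x, ENNReal.ofReal x ∂(expMeasure lam) := by
  have := isProbabilityMeasure_expMeasure h
  have h1 : MeasurePreserving (fun g : ℕ → ℝ => g 0) (waitLaw lam h) (expMeasure lam) :=
    measurePreserving_eval_infinitePi (fun _ : ℕ => expMeasure lam) 0
  have h2 : MeasurePreserving (fun p : (ℕ → ℝ) × (ℕ → C4) => p.1) (Pr h ν) (waitLaw lam h) :=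
    measurePreserving_fst
  exact (h1.comp h2).lintegral_comp (f := fun x => ENNReal.ofReal x) (by fun_prop)

lemma ae_nn (ν : Measure C4) [IsProbabilityMeasure ν] : ∀ᵐ p ∂(Pr h ν), ∀ k, 0 ≤ p.1 k := by
  have h2 : MeasurePreserving (fun p : (ℕ → ℝ) × (ℕ → C4) => p.1) (Pr h ν) (waitLaw lam h) :=
    measurePreserving_fst
  exact h2.quasiMeasurePreserving.ae (wait_nonneg h)

lemma mean_upper (ν : Measure C4) [IsProbabilityMeasure ν] :
    meanCover lam 1 h ν ≤ (∫⁻ x, ENNReal.ofReal x ∂(expMeasure lam)) +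
      ∑ a : C4, ∑ b : C4, ν {a} * ν {b} * ENNReal.ofReal (E lam (cyc a b)) := by
  rw [← int_g0 h ν, ← int_D h ν, ← lintegral_add_left (by fun_prop)]
  refine lintegral_mono_ae ?_
  filter_upwards [ae_nn h ν] with p hp
  refine (cover_le p.1 hp p.2).trans ?_
  exact ENNReal.ofReal_add_le

lemma two_small (ν : Measure C4) [IsProbabilityMeasure ν] :
    ∫⁻ p, {p : ℕ → ℝ | p 1 ≤ 2 ∧ p 2 ≤ 2}.indicator (fun _ => (2:ℝ≥0∞)) p.1 ∂(Pr h ν) ≤
      ENNReal.ofReal (8 * lam ^ 2) := by
  have := isProbabilityMeasure_expMeasure h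
  have h2 : MeasurePreserving (fun p : (ℕ → ℝ) × (ℕ → C4) => p.1) (Pr h ν) (waitLaw lam h) :=
    measurePreserving_fst
  have hm : MeasurableSet {p : ℕ → ℝ | p 1 ≤ 2 ∧ p 2 ≤ 2} :=
    (measurableSet_Iic.preimage (measurable_pi_apply 1)).inter
      (measurableSet_Iic.preimage (measurable_pi_apply 2))
  have e1 := h2.lintegral_comp (f := {p : ℕ → ℝ | p 1 ≤ 2 ∧ p 2 ≤ 2}.indicator
    (fun _ => (2:ℝ≥0∞))) (measurable_const.indicator hm)
  rw [e1, lintegral_indicator hm, setLIntegral_const]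
  have h3 : (waitLaw lam h).map (fun g => (g 1, g 2)) = (expMeasure lam).prod (expMeasure lam) :=
    Measure.infinitePi_map_eval_prod (P := fun _ : ℕ => expMeasure lam) (by norm_num)
  have h4 : waitLaw lam h {p : ℕ → ℝ | p 1 ≤ 2 ∧ p 2 ≤ 2} =
      expMeasure lam (Iic 2) * expMeasure lam (Iic 2) := by
    rw [← Measure.prod_prod, ← h3, Measure.map_apply (by fun_prop)
      (measurableSet_Iic.prod measurableSet_Iic)]
    rfl
  have h5 : expMeasure lam (Iic 2) ≤ ENNReal.ofReal (2 * lam) := by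
    rw [← ofReal_measureReal, exp_real h (by norm_num)]
    apply ENNReal.ofReal_le_ofReal
    have := Real.add_one_le_exp (-(lam * 2))
    linarith
  rw [h4]
  calc (2:ℝ≥0∞) * (expMeasure lam (Iic 2) * expMeasure lam (Iic 2)) ≤
      2 * (ENNReal.ofReal (2 * lam) * ENNReal.ofReal (2 * lam)) := by gcongr
    _ = ENNReal.ofReal (8 * lam ^ 2) := by
      have : (2 : ℝ≥0∞) = ENNReal.ofReal 2 := by simp
      rw [this, ← ENNReal.ofReal_mul (by positivity), ← ENNReal.ofReal_mul (by positivity)]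
      congr 1; ring

lemma mean_lower (ν : Measure C4) [IsProbabilityMeasure ν] :
    (∫⁻ x, ENNReal.ofReal x ∂(expMeasure lam)) +
      ∑ a : C4, ∑ b : C4, ν {a} * ν {b} * ENNReal.ofReal (E lam (cyc a b)) ≤
      meanCover lam 1 h ν + ENNReal.ofReal (8 * lam ^ 2) := by
  have hm : MeasurableSet {p : ℕ → ℝ | p 1 ≤ 2 ∧ p 2 ≤ 2} :=
    (measurableSet_Iic.preimage (measurable_pi_apply 1)).inter
      (measurableSet_Iic.preimage (measurable_pi_apply 2))
  refine le_trans ?_ (add_le_add_right (two_small h ν) _)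
  have hm2 : Measurable fun p : (ℕ → ℝ) × (ℕ → C4) =>
      {p : ℕ → ℝ | p 1 ≤ 2 ∧ p 2 ≤ 2}.indicator (fun _ => (2:ℝ≥0∞)) p.1 :=
    (measurable_const.indicator hm).comp measurable_fst
  have e0 := lintegral_add_right (μ := Pr h ν) (fun p => coverTime 1 p.1 p.2) hm2
  rw [← int_g0 h ν, ← int_D h ν, ← lintegral_add_left (by fun_prop), meanCover, ← e0]
  refine lintegral_mono_ae ?_
  filter_upwards [ae_nn h ν] with p hp
  refine le_trans (le_of_eq ?_) (le_cover p.1 hp p.2)
  exact (ENNReal.ofReal_add (hp 0) (dd_nonneg _ (hp 1))).symm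

/-- integral of a finite combination of indicators -/
lemma int_ind {x : ℝ} (hx : 0 ≤ x) : ∫ s, (Iic x).indicator (fun _ => (1:ℝ)) s ∂(expMeasure lam) =
    1 - Real.exp (-(lam * x)) := by
  rw [← exp_real h hx]
  exact integral_indicator_one measurableSet_Iic

end

end Pool.Agent.R972.CT
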