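import Pool.Agent.R972.CT.Defs

set_option autoImplicit false

open MeasureTheory ProbabilityTheory Set
open scoped ENNReal

namespace Pool.Agent.R972.CT

/-- the time needed after the first arrival if only two seeds are used, by distance of the seeds -/
noncomputable def dd (j : ℕ) (s : ℝ) : ℝ :=
  if j = 0 then 2 else if j = 1 then min 2 (s + 1) else min 2 (max 1 s)

/-- the time needed after the first arrival if only two seeds are used -/
noncomputable def D (a b : C4) (s : ℝ) : ℝ := dd (cyc a b) s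

lemma cyc_le : ∀ a b : ZMod 4, cyc a b ≤ 2 := by decide
lemma cyc_f1 : ∀ a b x : ZMod 4, cyc a b = 1 → cyc a x = 2 → cyc b x = 1 := by decide
lemma cyc_f2 : ∀ a b x : ZMod 4, cyc a b = 2 → cyc a x = 2 → cyc b x = 0 := by decide
lemma cyc_g0 : ∀ a b : ZMod 4, cyc a b = 0 → ∃ x : ZMod 4, cyc a x = 2 ∧ cyc b x = 2 := by decide
lemma cyc_g1 : ∀ a b : ZMod 4, cyc a b = 1 → ∃ x : ZMod 4, cyc a x = 2 ∧ cyc b x = 1 := by decide
lemma cyc_g2 : ∀ a b : ZMod 4, cyc a b = 2 → ∃ x : ZMod 4, cyc a x = 1 ∧ cyc b x = 1 := by decide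

lemma dd_le (j : ℕ) (s : ℝ) : dd j s ≤ 2 := by
  unfold dd; split_ifs
  · exact le_rfl
  · exact min_le_left _ _
  · exact min_le_left _ _

lemma dd_nonneg (j : ℕ) {s : ℝ} (hs : 0 ≤ s) : 0 ≤ dd j s := by
  unfold dd; split_ifs
  · norm_num
  · exact le_min (by norm_num) (by linarith)
  · exact le_min (by norm_num) (le_max_of_le_left (by norm_num))

lemma D_upper (a b x : C4) {s : ℝ} (hs : 0 ≤ s) :
    dist x a ≤ D a b s ∨ s + dist x b ≤ D a b s := by
  rw [dist_comm x a, dist_comm x b, dist_C4, dist_C4, D, dd]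
  have h0 := cyc_le a b
  have h1 := cyc_le a x
  have hb : (0:ℝ) ≤ (cyc b x : ℝ) := Nat.cast_nonneg _
  split_ifs with h2 h3
  · left; exact_mod_cast h1
  · rcases Nat.lt_or_ge (cyc a x) 2 with h4 | h4
    · left
      have : (cyc a x : ℝ) ≤ 1 := by exact_mod_cast (by omega : cyc a x ≤ 1)
      exact le_min (by linarith) (by linarith)
    · have h5 : cyc a x = 2 := le_antisymm h1 h4
      have h6 := cyc_f1 a b x h3 h5
      rw [h5, h6]
      rcases le_total 1 s with h7 | h7
      · left; exact le_min (by norm_num) (by push_cast; linarith)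
      · right; exact le_min (by push_cast; linarith) (by push_cast; linarith)
  · have h3' : cyc a b = 2 := by omega
    rcases Nat.lt_or_ge (cyc a x) 2 with h4 | h4
    · left
      have : (cyc a x : ℝ) ≤ 1 := by exact_mod_cast (by omega : cyc a x ≤ 1)
      exact le_min (by linarith) (le_max_of_le_left this)
    · have h5 : cyc a x = 2 := le_antisymm h1 h4
      have h6 := cyc_f2 a b x h3' h5
      rw [h5, h6]
      rcases le_total 2 s with h7 | h7
      · left; exact le_min (by norm_num) (le_max_of_le_right (by push_cast; linarith))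
      · right; exact le_min (by push_cast; linarith) (le_max_of_le_right (by push_cast; linarith))

lemma D_lower (a b : C4) {s : ℝ} (hs : 0 ≤ s) :
    ∃ x : C4, D a b s ≤ dist x a ∧ D a b s ≤ s + dist x b := by
  have h0 := cyc_le a b
  rcases Nat.lt_or_ge (cyc a b) 1 with h1 | h1
  · have h2 : cyc a b = 0 := by omega
    obtain ⟨(x : C4), hxa, hxb⟩ := cyc_g0 a b h2
    refine ⟨x, ?_⟩
    rw [dist_comm x a, dist_comm x b, dist_C4, dist_C4, hxa, hxb, D, h2]
    have := dd_le 0 s
    constructor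
    · push_cast; linarith
    · push_cast; linarith
  · rcases Nat.lt_or_ge (cyc a b) 2 with h2 | h2
    · have h3 : cyc a b = 1 := by omega
      obtain ⟨(x : C4), hxa, hxb⟩ := cyc_g1 a b h3
      refine ⟨x, ?_⟩
      rw [dist_comm x a, dist_comm x b, dist_C4, dist_C4, hxa, hxb, D, h3]
      have h4 := dd_le 1 s
      have h5 : dd 1 s ≤ s + 1 := by simp only [dd]; norm_num
      constructor
      · push_cast; linarith
      · push_cast; linarith
    · have h3 : cyc a b = 2 := by omega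
      have h6 : dd 2 s = min 2 (max 1 s) := by simp [dd]
      rcases le_total s 1 with h4 | h4
      · obtain ⟨(x : C4), hxa, hxb⟩ := cyc_g2 a b h3
        refine ⟨x, ?_⟩
        rw [dist_comm x a, dist_comm x b, dist_C4, dist_C4, hxa, hxb, D, h3, h6, max_eq_left h4]
        norm_num
        exact hs
      · refine ⟨b, ?_⟩
        rw [dist_comm b a, dist_self, dist_C4, D, h3, h6, max_eq_right h4]
        constructor
        · push_cast; exact min_le_left _ _
        · rw [add_zero]; exact min_le_right _ _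

lemma arrival_zero (g : ℕ → ℝ) : arrival g 0 = g 0 := by simp [arrival]
lemma arrival_one (g : ℕ → ℝ) : arrival g 1 = g 0 + g 1 := by simp [arrival, Finset.sum_range_succ]

lemma arrival_ge (g : ℕ → ℝ) (hg : ∀ k, 0 ≤ g k) {i j : ℕ} (h : j ≤ i) :
    arrival g j ≤ arrival g i := by
  unfold arrival
  exact Finset.sum_le_sum_of_subset_of_nonneg (Finset.range_mono (by omega)) fun k _ _ => hg k

lemma cover_le (g : ℕ → ℝ) (hg : ∀ k, 0 ≤ g k) (σ : ℕ → C4) :
    coverTime 1 g σ ≤ ENNReal.ofReal (g 0 + D (σ 0) (σ 1) (g 1)) := by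
  have hD : 0 ≤ D (σ 0) (σ 1) (g 1) := dd_nonneg _ (hg 1)
  have h0 : 0 ≤ g 0 + D (σ 0) (σ 1) (g 1) := add_nonneg (hg 0) hD
  refine iInf_le_of_le (g 0 + D (σ 0) (σ 1) (g 1)) (iInf_le_of_le h0 (iInf_le_of_le ?_ le_rfl))
  rw [eq_univ_iff_forall]
  intro x
  rw [grown, mem_iUnion₂]
  rcases D_upper (σ 0) (σ 1) x (hg 1) with h | h
  · refine ⟨0, ?_, ?_⟩
    · rw [mem_ofPred_eq, arrival_zero]; linarith
    · rw [Metric.mem_closedBall, arrival_zero]; linarith
  · have : 0 ≤ dist x (σ 1) := dist_nonneg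
    refine ⟨1, ?_, ?_⟩
    · rw [mem_ofPred_eq, arrival_one]; linarith
    · rw [Metric.mem_closedBall, arrival_one]; linarith

lemma le_cover (g : ℕ → ℝ) (hg : ∀ k, 0 ≤ g k) (σ : ℕ → C4) :
    ENNReal.ofReal (g 0 + D (σ 0) (σ 1) (g 1)) ≤
      coverTime 1 g σ + {p : ℕ → ℝ | p 1 ≤ 2 ∧ p 2 ≤ 2}.indicator (fun _ => 2) g := by
  rw [coverTime, ENNReal.iInf_add]
  refine le_iInf fun t => ?_
  rw [ENNReal.iInf_add]
  refine le_iInf fun ht => ?_
  rw [ENNReal.iInf_add]
  refine le_iInf fun hcov => ?_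
  have hD2 : D (σ 0) (σ 1) (g 1) ≤ 2 := dd_le _ _
  by_cases hI : g 1 ≤ 2 ∧ g 2 ≤ 2
  · rw [indicator_of_mem (by exact hI)]
    have h1 : (σ 0) ∈ grown 1 g σ t := by rw [hcov]; trivial
    rw [grown, mem_iUnion₂] at h1
    obtain ⟨i, hi, -⟩ := h1
    have h2 : g 0 ≤ t := by
      rw [← arrival_zero g]; exact (arrival_ge g hg (Nat.zero_le i)).trans hi
    have h3 : (2 : ℝ≥0∞) = ENNReal.ofReal 2 := by simp
    rw [h3, ← ENNReal.ofReal_add ht (by norm_num)]
    exact ENNReal.ofReal_le_ofReal (by linarith)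
  · rw [indicator_of_notMem (by exact hI), add_zero]
    apply ENNReal.ofReal_le_ofReal
    by_contra hlt
    push Not at hlt
    obtain ⟨x, hx1, hx2⟩ := D_lower (σ 0) (σ 1) (hg 1)
    have h1 : x ∈ grown 1 g σ t := by rw [hcov]; trivial
    rw [grown, mem_iUnion₂] at h1
    obtain ⟨i, hi, hxi⟩ := h1
    rw [mem_ofPred_eq] at hi
    rw [Metric.mem_closedBall] at hxi
    match i, hi, hxi with
    | 0, hi, hxi => rw [arrival_zero] at hxi; linarith
    | 1, hi, hxi => rw [arrival_one] at hxi; linarith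
    | i + 2, hi, hxi =>
      have h2 := arrival_ge g hg (show 2 ≤ i + 2 by omega)
      have h3 : arrival g 2 = g 0 + g 1 + g 2 := by simp [arrival, Finset.sum_range_succ]
      have h4 : 2 < g 1 + g 2 := by
        by_contra h5
        push Not at h5
        exact hI ⟨by linarith [hg 2], by linarith [hg 1]⟩
      linarith

end Pool.Agent.R972.CT
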